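import Pool.Agent.H63.GV12

namespace Pool.Agent.Results.MP_675cc6_lc.Effective

open Pool.Agent.H63.GV

theorem result :
    (∀ (G : Gr) (S a : ℕ), ∃ L : List (ℕ × List ℕ), {b | Reach G S a b} = SemSet L) ∧
    ∃ f : Gr × ℕ × ℕ →. List (ℕ × List ℕ), Partrec f ∧
      ∀ (G : Gr) (S a : ℕ), Thin G → ∃ L ∈ f (G, S, a), {b | Reach G S a b} = SemSet L :=
  ⟨all_semilinear, main⟩

end Pool.Agent.Results.MP_675cc6_lc.Effective
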